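import Pool.Agent.H31.CT.CORE

/-!
Character twists (MP_52e316_nt): the second moment in a window of the L-functions of forms `G i` of levels
at most `B0`, whose coefficients satisfy the large sieve of a family of level `N`.
-/

set_option autoImplicit false

namespace Pool.Agent.H31.CT

open MeasureTheory Pool.Agent.H27.L1.H34.GM Pool.Agent.H27.L1.H34.GZ
open Pool.Agent.H27.L1.H34.GU Pool.Agent.H27.L1.H34.GA
open Pool.Agent.H27.L1.H68.GHY Pool.Agent.H27.L1.H23.GB Pool.Agent.H27.L1.H34.GHY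
open Pool.Agent.H27.L1.H34.GZZ
open Pool.Agent.H36.THN

/-- the size of the second moment: `N ^ m H ^ (m ^ 2)` for the family, `B0 U ^ m` the analytic conductor of
the L-functions -/
noncomputable def Q3 (m N : ℕ) (B0 H U : ℝ) : ℝ :=
  (N : ℝ) ^ m * H ^ (m ^ 2) + B0 ^ ((m : ℝ) / 2) * U ^ ((m : ℝ) ^ 2 / 2)

/-- the forms `G i`: levels at most `B0`, Lipschitz constant `U`, normalised, with the coefficients
`c n * lam i n` -/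
structure Tw (m : ℕ) (T : ℕ → Finset (ZM m)) (D : Set (V m)) (B0 U : ℝ) {ι : Type} (c : ℕ → ℂ)
    (lam : ι → ℕ → ℂ) (M : ι → ℕ) [∀ i, NeZero (M i)] (G : ∀ i, Mat m → VN m (M i) → ℂ)
    (lamG : ι → ℕ → ℂ) : Prop where
  sys : ∀ i, SysZ m (M i) T D ∧ (M i : ℝ) ≤ B0
  form : ∀ i, CusB m (M i) T (G i) (lamG i) ∧ Lip D (G i) U ∧ nU D (G i) = 1
  tw : ∀ i n, 1 ≤ n → lamG i n = c n * lam i n

/-- from the truncated L-functions to the L-functions, two levels -/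
theorem ct_GK (hENA : T_ENA) (hHYZ : T_HYZ) (m : ℕ) (hm1 : 1 ≤ m) (ε : ℝ) (hε : 0 < ε) :
  ∃ e1 : ℝ, 0 < e1 ∧ ∀ c' C1 C3 : ℝ, 0 < c' → c' ≤ 1 / 2 → 0 < C1 → 0 < C3 →
  ∃ C : ℝ, 0 < C ∧
  ∀ (T : ℕ → Finset (ZM m)) (D : Set (V m)) (N : ℕ) (B0 H U : ℝ), 1 ≤ N → 1 ≤ B0 → 1 ≤ H → H ≤ U →
  ∀ (ι : Type) [Fintype ι] [DecidableEq ι] (M : ι → ℕ) [∀ i, NeZero (M i)]
    (G : ∀ i, Mat m → VN m (M i) → ℂ) (lamG : ι → ℕ → ℂ) (W : ι → ℝ),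
    (∀ i, SysZ m (M i) T D ∧ (M i : ℝ) ≤ B0) →
    (∀ i, CusB m (M i) T (G i) (lamG i) ∧ Lip D (G i) U ∧ nU D (G i) = 1) → (∀ i, 0 ≤ W i) →
    ∀ δ : ℝ, δ = c' / H →
    (∑ i, W i) * δ⁻¹ ≤ C3 * ((N : ℝ) * δ⁻¹) ^ e1 * (N : ℝ) ^ m * δ⁻¹ ^ (m ^ 2) →
    (∀ X : ℝ, 1 ≤ X → ∀ τ : ℝ, ∑ i, ENNReal.ofReal (W i) *
      ∫⁻ t in Set.Icc (-δ⁻¹) δ⁻¹, ENNReal.ofReal (‖SD (lamG i) X (t + τ)‖ ^ 2) ≤
        ENNReal.ofReal (C1 * ((N : ℝ) * δ⁻¹ * X) ^ (2 * e1) * (N : ℝ) ^ m * δ⁻¹ ^ (m ^ 2) *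
          (1 + δ ^ m * X / N) ^ m)) →
    ∃ L : ι → ℂ → ℂ, (∀ i, IsL m 1 (lamG i) (L i)) ∧
      ∀ (t0 : ℝ) (J : ι → Finset ℝ), H + |t0| ≤ U → (∀ i, Wsp (J i)) →
      (∀ i, ∀ t ∈ J i, |t - t0| ≤ H) →
      ∑ i, W i * ∑ t ∈ J i, ‖L i (1 / 2 + t * Complex.I)‖ ^ 2 ≤
        C * ((N : ℝ) * B0 * U) ^ ε * Q3 m N B0 H U := by
  obtain ⟨e1, he1, he2, he3⟩ : ∃ e1 : ℝ, 0 < e1 ∧ e1 ≤ 1 ∧ (3 * m + 6) * e1 ≤ ε := by
    refine ⟨min 1 (ε / (3 * m + 6)), lt_min one_pos (by positivity), min_le_left _ _, ?_⟩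
    have h := min_le_right (1 : ℝ) (ε / (3 * m + 6))
    have h3 : (0 : ℝ) < 3 * m + 6 := by positivity
    calc (3 * (m : ℝ) + 6) * min 1 (ε / (3 * m + 6)) ≤ (3 * m + 6) * (ε / (3 * m + 6)) :=
          mul_le_mul_of_nonneg_left h h3.le
      _ = ε := by field_simp
  obtain ⟨C2, C0, hC2, hC0, hcore⟩ := ct_core hHYZ m hm1 e1 he1
  refine ⟨e1, he1, ?_⟩
  intro c' C1 C3 hc' hc'1 hC1 hC3
  have hmm : (0 : ℝ) ≤ m := Nat.cast_nonneg m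
  have hc'i : 1 ≤ c'⁻¹ := by
    rw [one_le_inv₀ hc']
    linarith
  -- the constants
  obtain ⟨A1, hA1⟩ : ∃ A1 : ℝ, A1 = C3 * (c'⁻¹ ^ e1 * c'⁻¹ ^ (m ^ 2)) := ⟨_, rfl⟩
  obtain ⟨A2, hA2⟩ : ∃ A2 : ℝ, A2 = C1 * (c'⁻¹ * (2 * C2)) ^ (2 * e1) *
    (2 ^ m * (c'⁻¹ ^ (m ^ 2) + (2 * C2) ^ m)) := ⟨_, rfl⟩
  have hA10 : 0 < A1 := by rw [hA1]; positivity
  have hA20 : 0 < A2 := by rw [hA2]; positivity
  refine ⟨C0 * (A1 + A2), by positivity, ?_⟩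
  intro T D N B0 H Q hN hB0 hH1 hHQ ι _ _ M _ F lam W hSys hF hW0 δ hδ hcard hdyd
  have hnz : ∀ i, NZ (F i) := fun i => mou_nz hm1 (hSys i).1.dom (F i) (by
    rw [(hF i).2.2]; exact one_ne_zero)
  have hL0 : ∀ i, ∃ L : ℂ → ℂ, IsL m 1 (lam i) L ∧ ∀ ψ : ℝ → ℂ, Wc m ψ (lam i) →
      ∀ s : ℂ, LmA m ψ (lam i) s = L s * MelA m ψ s := fun i =>
    hENA m (M i) T D (hSys i).1 (F i) (lam i) (hF i).1 (hnz i)
  choose L hLL hLm using hL0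
  refine ⟨L, hLL, ?_⟩
  intro t0 J hQd hJ hJH
  -- parameters
  have hH0 : 0 < H := by linarith
  have hN1 : (1 : ℝ) ≤ N := by exact_mod_cast hN
  have hN0 : (0 : ℝ) < N := by linarith
  have hB00 : 0 < B0 := by linarith
  have hδi : δ⁻¹ = c'⁻¹ * H := by rw [hδ]; field_simp
  have hδ0 : 0 < δ := by rw [hδ]; positivity
  have hHδ : H ≤ δ⁻¹ := by
    rw [hδi]
    exact le_mul_of_one_le_left hH0.le hc'i
  have hQ1 : 1 ≤ Q := hH1.trans hHQ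
  have hQ0 : 0 < Q := by linarith
  have hBQ : 1 ≤ B0 * Q := by nlinarith
  obtain ⟨K, hK⟩ : ∃ K : ℝ, K = (N : ℝ) * B0 * Q := ⟨_, rfl⟩
  have hBK : B0 * Q ≤ K := by
    rw [hK, mul_assoc]
    exact le_mul_of_one_le_left (by positivity) hN1
  have hK1 : 1 ≤ K := hBQ.trans hBK
  have hK0 : 0 < K := by linarith
  have hNHK : (N : ℝ) * H ≤ K := by
    rw [hK]
    have h1 : (N : ℝ) ≤ N * B0 := le_mul_of_one_le_right hN0.le hB0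
    calc (N : ℝ) * H ≤ (N * B0) * H := mul_le_mul_of_nonneg_right h1 hH0.le
      _ ≤ (N * B0) * Q := mul_le_mul_of_nonneg_left hHQ (by positivity)
  rw [← hK]
  -- the length
  obtain ⟨X0, hX0⟩ : ∃ X0 : ℝ, X0 = C2 * (B0 * Q ^ m) ^ (1 / 2 : ℝ) * (B0 * Q) ^ e1 := ⟨_, rfl⟩
  have hX01 : 1 ≤ X0 := by
    rw [hX0]
    have e1' : 1 ≤ (B0 * Q ^ m) ^ (1 / 2 : ℝ) := by
      refine Real.one_le_rpow ?_ (by norm_num)
      have : 1 ≤ Q ^ m := one_le_pow₀ hQ1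
      nlinarith
    have e2' : 1 ≤ (B0 * Q) ^ e1 := Real.one_le_rpow hBQ he1.le
    calc (1 : ℝ) = 1 * 1 * 1 := by norm_num
      _ ≤ _ := by gcongr
  obtain ⟨X, hX⟩ : ∃ X : ℕ, X = ⌈X0⌉₊ := ⟨_, rfl⟩
  have hXge : X0 ≤ X := by rw [hX]; exact Nat.le_ceil _
  have hXle : (X : ℝ) ≤ 2 * X0 := by
    rw [hX]
    have := Nat.ceil_lt_add_one (by linarith : 0 ≤ X0)
    linarith
  have hX1 : (1 : ℝ) ≤ X := hX01.trans hXge
  have hXnn : (0 : ℝ) ≤ X := by linarith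
  obtain ⟨hl1, hl2⟩ := len_le hm1 hB0 hQ1 he2 hC2 hXnn (by rw [← hX0]; exact hXle)
  -- the bound of the mean square
  obtain ⟨R, hR⟩ : ∃ R : ℝ, R = C1 * ((N : ℝ) * δ⁻¹ * X) ^ (2 * e1) * (N : ℝ) ^ m *
    δ⁻¹ ^ (m ^ 2) * (1 + δ ^ m * X / N) ^ m := ⟨_, rfl⟩
  have hR0 : 0 ≤ R := by rw [hR]; positivity
  have hmain := hcore T D B0 hB0 Q H δ⁻¹ t0 hH1 hHδ hQd ι M F lam W L hSys
    (fun i => hF i) hW0 hLL X (by
      rw [← hX0]; exact hXge) R hR0 (fun τ => by rw [hR]; exact hdyd X hX1 τ) J hJ hJH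
  refine hmain.trans ?_
  -- the size
  obtain ⟨Z, hZ⟩ : ∃ Z : ℝ, Z = Q3 m N B0 H Q := ⟨_, rfl⟩
  have hZe : Z = (N : ℝ) ^ m * H ^ (m ^ 2) + B0 ^ ((m : ℝ) / 2) * Q ^ ((m : ℝ) ^ 2 / 2) := by
    rw [hZ]
    rfl
  have hZ1 : (N : ℝ) ^ m * H ^ (m ^ 2) ≤ Z := by
    rw [hZe]
    exact le_add_of_nonneg_right (by positivity)
  have hZ2 : B0 ^ ((m : ℝ) / 2) * Q ^ ((m : ℝ) ^ 2 / 2) ≤ Z := by
    rw [hZe]
    exact le_add_of_nonneg_left (by positivity)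
  have hZ0 : 0 ≤ Z := by rw [hZe]; positivity
  rw [← hZ]
  have hpw : δ⁻¹ ^ (m ^ 2) = c'⁻¹ ^ (m ^ 2) * H ^ (m ^ 2) := by rw [hδi, mul_pow]
  -- the weights
  have hWs : 0 ≤ ∑ i, W i := Finset.sum_nonneg (fun i _ => hW0 i)
  have b1 : (∑ i, W i) * H ≤ A1 * K ^ e1 * Z := by
    calc (∑ i, W i) * H ≤ (∑ i, W i) * δ⁻¹ := mul_le_mul_of_nonneg_left hHδ hWs
      _ ≤ C3 * ((N : ℝ) * δ⁻¹) ^ e1 * (N : ℝ) ^ m * δ⁻¹ ^ (m ^ 2) := hcard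
      _ = C3 * (c'⁻¹ ^ e1 * c'⁻¹ ^ (m ^ 2)) * ((N : ℝ) * H) ^ e1 *
          ((N : ℝ) ^ m * H ^ (m ^ 2)) := by
          rw [hpw, hδi, show (N : ℝ) * (c'⁻¹ * H) = c'⁻¹ * (N * H) by ring,
            Real.mul_rpow (by positivity) (by positivity)]
          ring
      _ ≤ A1 * K ^ e1 * Z := by
          rw [hA1]
          gcongr
  -- the mean square
  have b2 : R ≤ A2 * K ^ ((3 * (m : ℝ) + 4) * e1) * Z := by
    have c1 : ((N : ℝ) * δ⁻¹ * X) ^ (2 * e1) ≤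
        (c'⁻¹ * (2 * C2)) ^ (2 * e1) * K ^ ((2 * (m : ℝ) + 4) * e1) := by
      have d1 : (N : ℝ) * δ⁻¹ * X ≤ c'⁻¹ * (2 * C2) * K ^ ((m : ℝ) + 2) := by
        have d0 : (N : ℝ) * (B0 * Q) ^ ((m : ℝ) + 2) ≤ K ^ ((m : ℝ) + 2) := by
          rw [hK, mul_assoc, Real.mul_rpow hN0.le (by positivity)]
          refine mul_le_mul_of_nonneg_right ?_ (by positivity)
          calc (N : ℝ) = (N : ℝ) ^ (1 : ℝ) := (Real.rpow_one _).symm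
            _ ≤ (N : ℝ) ^ ((m : ℝ) + 2) := Real.rpow_le_rpow_of_exponent_le hN1 (by linarith)
        have d0' : H * X ≤ B0 * Q * X := by
          refine mul_le_mul_of_nonneg_right ?_ hXnn
          exact hHQ.trans (le_mul_of_one_le_left hQ0.le hB0)
        calc (N : ℝ) * δ⁻¹ * X = c'⁻¹ * (N * (H * X)) := by rw [hδi]; ring
          _ ≤ c'⁻¹ * (N * (B0 * Q * X)) := by gcongr
          _ ≤ c'⁻¹ * (N * (2 * C2 * (B0 * Q) ^ ((m : ℝ) + 2))) := by gcongr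
          _ = c'⁻¹ * (2 * C2) * (N * (B0 * Q) ^ ((m : ℝ) + 2)) := by ring
          _ ≤ _ := mul_le_mul_of_nonneg_left d0 (by positivity)
      calc ((N : ℝ) * δ⁻¹ * X) ^ (2 * e1) ≤
          (c'⁻¹ * (2 * C2) * K ^ ((m : ℝ) + 2)) ^ (2 * e1) :=
            Real.rpow_le_rpow (by positivity) d1 (by positivity)
        _ = _ := by
            rw [Real.mul_rpow (by positivity) (by positivity), ← Real.rpow_mul (by positivity)]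
            congr 2
            ring
    have c2 : (N : ℝ) ^ m * δ⁻¹ ^ (m ^ 2) * (1 + δ ^ m * X / N) ^ m ≤
        2 ^ m * ((N : ℝ) ^ m * δ⁻¹ ^ (m ^ 2) + (X : ℝ) ^ m) := by
      have d2 : (1 + δ ^ m * X / N) ^ m ≤ 2 ^ m * (1 + (δ ^ m * X / N) ^ m) := by
        have d3 : 0 ≤ δ ^ m * X / N := by positivity
        rcases le_total 1 (δ ^ m * X / N) with h | h
        · calc (1 + δ ^ m * X / N) ^ m ≤ (2 * (δ ^ m * X / N)) ^ m :=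
              pow_le_pow_left₀ (by positivity) (by linarith) m
            _ = 2 ^ m * (δ ^ m * X / N) ^ m := mul_pow _ _ _
            _ ≤ 2 ^ m * (1 + (δ ^ m * X / N) ^ m) := by
                refine mul_le_mul_of_nonneg_left ?_ (by positivity)
                linarith
        · calc (1 + δ ^ m * X / N) ^ m ≤ 2 ^ m :=
              pow_le_pow_left₀ (by positivity) (by linarith) m
            _ ≤ 2 ^ m * (1 + (δ ^ m * X / N) ^ m) := by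
                refine le_mul_of_one_le_right (by positivity) ?_
                have : 0 ≤ (δ ^ m * X / N) ^ m := by positivity
                linarith
      have d4 : (N : ℝ) ^ m * δ⁻¹ ^ (m ^ 2) * (δ ^ m * X / N) ^ m = (X : ℝ) ^ m := by
        rw [div_pow, mul_pow, ← pow_mul, show m * m = m ^ 2 by ring, inv_pow]
        field_simp
      calc (N : ℝ) ^ m * δ⁻¹ ^ (m ^ 2) * (1 + δ ^ m * X / N) ^ m ≤
          (N : ℝ) ^ m * δ⁻¹ ^ (m ^ 2) * (2 ^ m * (1 + (δ ^ m * X / N) ^ m)) := by gcongr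
        _ = 2 ^ m * ((N : ℝ) ^ m * δ⁻¹ ^ (m ^ 2) +
            (N : ℝ) ^ m * δ⁻¹ ^ (m ^ 2) * (δ ^ m * X / N) ^ m) := by ring
        _ = _ := by rw [d4]
    have c3 : (N : ℝ) ^ m * δ⁻¹ ^ (m ^ 2) + (X : ℝ) ^ m ≤
        (c'⁻¹ ^ (m ^ 2) + (2 * C2) ^ m) * K ^ (m * e1) * Z := by
      have d5 : 1 ≤ K ^ (m * e1) := Real.one_le_rpow hK1 (by positivity)
      have d6 : (N : ℝ) ^ m * δ⁻¹ ^ (m ^ 2) ≤ c'⁻¹ ^ (m ^ 2) * K ^ (m * e1) * Z := by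
        calc (N : ℝ) ^ m * δ⁻¹ ^ (m ^ 2) = c'⁻¹ ^ (m ^ 2) * 1 * ((N : ℝ) ^ m * H ^ (m ^ 2)) := by
              rw [hpw]
              ring
          _ ≤ _ := by gcongr
      have d7 : (X : ℝ) ^ m ≤ (2 * C2) ^ m * K ^ (m * e1) * Z := by
        calc (X : ℝ) ^ m ≤ (2 * C2) ^ m * (B0 ^ ((m : ℝ) / 2) * Q ^ ((m : ℝ) ^ 2 / 2)) *
              (B0 * Q) ^ (m * e1) := hl1
          _ ≤ (2 * C2) ^ m * Z * K ^ (m * e1) := by gcongr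
          _ = _ := by ring
      calc _ ≤ c'⁻¹ ^ (m ^ 2) * K ^ (m * e1) * Z +
          (2 * C2) ^ m * K ^ (m * e1) * Z := add_le_add d6 d7
        _ = _ := by ring
    calc R = C1 * ((N : ℝ) * δ⁻¹ * X) ^ (2 * e1) *
          ((N : ℝ) ^ m * δ⁻¹ ^ (m ^ 2) * (1 + δ ^ m * X / N) ^ m) := by rw [hR]; ring
      _ ≤ C1 * ((c'⁻¹ * (2 * C2)) ^ (2 * e1) * K ^ ((2 * (m : ℝ) + 4) * e1)) *
          (2 ^ m * ((c'⁻¹ ^ (m ^ 2) + (2 * C2) ^ m) * K ^ (m * e1) * Z)) := by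
          exact mul_le_mul (mul_le_mul_of_nonneg_left c1 hC1.le)
            (c2.trans (mul_le_mul_of_nonneg_left c3 (by positivity))) (by positivity)
            (by positivity)
      _ = A2 * (K ^ ((2 * (m : ℝ) + 4) * e1) * K ^ (m * e1)) * Z := by
          rw [hA2]
          ring
      _ = _ := by
          rw [← Real.rpow_add hK0]
          congr 3
          ring
  have f0 : (B0 * Q) ^ (2 * e1) ≤ K ^ (2 * e1) :=
    Real.rpow_le_rpow (by positivity) hBK (by positivity)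
  have f1 : K ^ (2 * e1) * K ^ e1 ≤ K ^ ε := by
    rw [← Real.rpow_add hK0]
    refine Real.rpow_le_rpow_of_exponent_le hK1 ?_
    nlinarith [mul_nonneg hmm he1.le]
  have f2 : K ^ (2 * e1) * K ^ ((3 * (m : ℝ) + 4) * e1) ≤ K ^ ε := by
    rw [← Real.rpow_add hK0]
    refine Real.rpow_le_rpow_of_exponent_le hK1 ?_
    nlinarith
  calc C0 * (B0 * Q) ^ (2 * e1) * ((∑ i, W i) * H + R) ≤
      C0 * K ^ (2 * e1) * (A1 * K ^ e1 * Z + A2 * K ^ ((3 * (m : ℝ) + 4) * e1) * Z) := by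
        gcongr
    _ = C0 * (A1 * (K ^ (2 * e1) * K ^ e1) +
        A2 * (K ^ (2 * e1) * K ^ ((3 * (m : ℝ) + 4) * e1))) * Z := by ring
    _ ≤ C0 * (A1 * K ^ ε + A2 * K ^ ε) * Z := by gcongr
    _ = _ := by ring

end Pool.Agent.H31.CT
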