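import Pool.Agent.H31.CT.LVT
import Pool.Agent.H31.THN.All

/-!
Character twists (MP_52e316_nt): the composition, no hypotheses.
-/

set_option autoImplicit false

namespace Pool.Agent.H31.CT

open Pool.Agent.H27.L1.H34.GM Pool.Agent.H27.L1.H34.GZ Pool.Agent.H27.L1.H34.GU Pool.Agent.H27.L1.H34.GA

theorem c_GBT : T_GBT := by
  intro m hm1 ε hε χ hχ cM CM AM hcM hCM c' hc' hc'1
  exact ct_GB (Pool.Agent.H23.THN.pf_LS1 Pool.Agent.H27.L1.H23.GHY.All.c_ENG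
      Pool.Agent.H27.L1.H23.GHY.All.c_TBS)
    Pool.Agent.H14.THN.pf_LQ1 Pool.Agent.H14.THN.pf_CR1 Pool.Agent.H23.THN.pf_DY1
    Pool.Agent.H27.L1.H23.GA.All.c_ENA Pool.Agent.H27.L1.H34.GZZ.c_HYZ m hm1 ε hε χ hχ cM CM AM hcM
    hCM c' hc' hc'1

/-- one level, all the admissible weights, the twisted second moment -/
theorem c_LVT : T_LVT :=
  pf_LVT (pf_GOT pf_PRF Pool.Agent.H31.THN.c_BO1 c_GBT) (pf_GHT pf_PRF Pool.Agent.H31.THN.c_BW1 c_GBT)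
    Pool.Agent.H27.L1.H52.GHK.c_HKW Pool.Agent.H27.L1.H34.GHK.c_ORS
    Pool.Agent.H27.L1.H34.GU.b_APU Pool.Agent.H27.L1.H34.GHK.c_WYE

end Pool.Agent.H31.CT
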