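import Pool.Agent.H12.ZN.DYA

/-!
Character twists (MP_52e316_nt): from the second moments at all scales around the heights `τ i` to the
exceptional set.
-/

set_option autoImplicit false

namespace Pool.Agent.H31.CT

open Classical in
/-- the exceptional set -/
theorem dya2 {ι : Type} [Fintype ι] (E K : ℕ) (hEK : E + 1 ≤ 4 * K) (v : ι → ℝ → ℝ)
    (hv : ∀ i u, 0 ≤ v i u) (P w τ : ι → ℝ) (hP : ∀ i, 1 ≤ P i) (hw : ∀ i, 0 ≤ w i) (C0 A : ℝ)
    (hC0 : 0 ≤ C0) (hA : 0 < A)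
    (h : ∀ R : ℝ, 1 ≤ R → ∀ u : ι → ℝ, (∀ i, |u i - τ i| ≤ R * P i) →
      ∑ i, w i * v i (u i) ^ 2 ≤ C0 * R ^ E) :
    ∑ i with (∃ t : ℝ, |t - τ i| ≤ P i ∧ ∃ u : ℝ, A * (1 + |u - t|) ^ (2 * K) < v i u), w i ≤
      2 ^ (2 * E + 1) * C0 / A ^ 2 := by
  have hs : ∀ x : ℝ, 0 ≤ x → Real.sqrt x ^ 4 = x ^ 2 := by
    intro x hx
    rw [show Real.sqrt x ^ 4 = (Real.sqrt x ^ 2) ^ 2 by ring, Real.sq_sqrt hx]
  have h1 := Pool.Agent.H12.ZN.dya E K hEK (fun i u => Real.sqrt (v i (u + τ i)))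
    (fun i u => Real.sqrt_nonneg _) P w hP hw C0 (Real.sqrt A) hC0 (Real.sqrt_pos.2 hA) (by
      intro R hR u hu
      have h2 := h R hR (fun i => u i + τ i) (fun i => by
        rw [add_sub_cancel_right]
        exact hu i)
      simp only [hs _ (hv _ _)]
      exact h2)
  rw [hs A hA.le] at h1
  refine le_trans ?_ h1
  refine Finset.sum_le_sum_of_subset_of_nonneg ?_ (fun i _ _ => hw i)
  intro i hi
  rw [Finset.mem_filter] at hi ⊢
  obtain ⟨hi1, t, ht, u, hu⟩ := hi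
  refine ⟨hi1, t - τ i, ht, u - τ i, ?_⟩
  rw [show u - τ i - (t - τ i) = u - t by ring, sub_add_cancel]
  have h3 : 0 ≤ 1 + |u - t| := by positivity
  have h4 : Real.sqrt A * (1 + |u - t|) ^ K = Real.sqrt (A * (1 + |u - t|) ^ (2 * K)) := by
    rw [Real.sqrt_mul hA.le, mul_comm 2 K, pow_mul, Real.sqrt_sq (by positivity)]
  rw [h4]
  exact Real.sqrt_lt_sqrt (by positivity) hu

end Pool.Agent.H31.CT
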