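import Pool.Agent.H31.CT.GKT

/-!
Character twists (MP_52e316_nt): the second moment in a window from the inequality of Bessel with given
weights, for the coefficients `c n * lam i n`.
-/

set_option autoImplicit false

namespace Pool.Agent.H31.CT

open MeasureTheory Pool.Agent.H27.L1.H34.GM Pool.Agent.H27.L1.H34.GZ Pool.Agent.H27.L1.H34.GU
  Pool.Agent.H27.L1.H34.GA Pool.Agent.H27.L1.H68.GHY Pool.Agent.H27.L1.H34.GHY
open Pool.Agent.H27.L1.H23.GB Pool.Agent.H27.L1.H34.GZZ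
open Pool.Agent.H27.L1.H69.GA Pool.Agent.H27.L1.H69.GB
open Pool.Agent.H47.THN (LT2 BES1 T_LS1 T_LQ1 T_CR1 T_DY1)

/-- bounded coefficients times bounded coefficients -/
lemma coe_mul {y : ℝ} {a c : ℕ → ℂ} (h : Coe y a) (hc : ∀ n, ‖c n‖ ≤ 1) :
    Coe y (fun n => a n * c n) := by
  refine ⟨fun n => ?_, fun n hn => h.supp n (fun h0 => hn ?_)⟩
  · rw [norm_mul]
    exact mul_le_one₀ (h.bd n) (norm_nonneg _) (hc n)
  · simp only [h0, zero_mul]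

lemma tl_mul (m : ℕ) (lam a c : ℕ → ℂ) (n : ℕ) :
    tl m (fun n => c n * lam n) a n = tl m lam (fun n => a n * c n) n := by
  unfold tl
  ring

lemma dp_mul (m : ℕ) (lam a c : ℕ → ℂ) (y t : ℝ) :
    DP m (fun n => c n * lam n) a y t = DP m lam (fun n => a n * c n) y t := by
  unfold DP
  exact Finset.sum_congr rfl fun n _ => by rw [tl_mul]

/-- the large sieve for the twisted coefficients -/
lemma lt2_mul {m : ℕ} {ε C : ℝ} {K : ℕ} {ι : Type} [Fintype ι] {W : ι → ENNReal}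
    {lam : ι → ℕ → ℂ} {N : ℕ} {δ : ℝ} (h : LT2 m ε C K W lam N δ) {c : ℕ → ℂ}
    (hc : ∀ n, ‖c n‖ ≤ 1) : LT2 m ε C K W (fun i n => c n * lam i n) N δ := by
  intro y a hy ha
  have h1 := h y (fun n => a n * c n) hy (coe_mul ha hc)
  simp only [dp_mul]
  exact h1

lemma sd_congr {lam lam' : ℕ → ℂ} (h : ∀ n, 1 ≤ n → lam n = lam' n) (X t : ℝ) :
    SD lam X t = SD lam' X t := by
  unfold SD
  exact Finset.sum_congr rfl fun n hn => by rw [h n (Finset.mem_Icc.1 hn).1]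

/-- the second moment in a window from the inequality of Bessel -/
theorem ct_GB (hLS1 : T_LS1) (hLQ1 : T_LQ1) (hCR1 : T_CR1) (hDY1 : T_DY1) (hENA : T_ENA)
    (hHYZ : T_HYZ) (m : ℕ) (hm1 : 1 ≤ m) (ε : ℝ) (hε : 0 < ε) (χ : ℝ → ℝ) (hχ : Prof χ)
    (cM CM : ℝ) (AM : ℕ) (hcM : 0 < cM) (hCM : 1 ≤ CM) (c' : ℝ) (hc' : 0 < c')
    (hc'1 : c' ≤ 1 / 2) : ∃ C : ℝ, 0 < C ∧
    ∀ (N : ℕ) [NeZero N] (T : ℕ → Finset (ZM m)) (D : Set (V m)), SysZ m N T D →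
    ∀ B0 H U : ℝ, 1 ≤ B0 → 1 ≤ H → H ≤ U → ∀ (ι : Type) [Fintype ι] [DecidableEq ι]
      (lam : ι → ℕ → ℂ) (W : ι → ℝ), (∀ i, lam i 1 = 1) → (∀ i, 0 ≤ W i) →
    ∀ δ : ℝ, δ = c' / H →
    (∀ Y : ℝ, 2 ≤ Y → CM * N * δ⁻¹ ^ AM ≤ Y →
      BES1 m (fun i => ENNReal.ofReal (W i)) lam N D χ cM δ Y) →
    ∀ (c : ℕ → ℂ) (M : ι → ℕ) [∀ i, NeZero (M i)] (G : ∀ i, Mat m → VN m (M i) → ℂ)
      (lamG : ι → ℕ → ℂ), (∀ n, ‖c n‖ ≤ 1) → Tw m T D B0 U c lam M G lamG →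
    ∃ L : ι → ℂ → ℂ, (∀ i, IsL m 1 (lamG i) (L i)) ∧
      ∀ (t0 : ℝ) (J : ι → Finset ℝ), H + |t0| ≤ U → (∀ i, Wsp (J i)) →
      (∀ i, ∀ t ∈ J i, |t - t0| ≤ H) →
      ∑ i, W i * ∑ t ∈ J i, ‖L i (1 / 2 + t * Complex.I)‖ ^ 2 ≤
        C * ((N : ℝ) * B0 * U) ^ ε * Q3 m N B0 H U := by
  obtain ⟨e1, he1, h⟩ := ct_GK hENA hHYZ m hm1 ε hε
  obtain ⟨Ca, Ka, hCa, hLa⟩ := hLS1 m hm1 (e1 / 2) (by positivity) χ hχ cM CM AM hcM hCM
  obtain ⟨Cb, Kb, hCb, hLb⟩ := hLS1 m hm1 e1 he1 χ hχ cM CM AM hcM hCM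
  obtain ⟨Cq, hCq, hQ⟩ := hLQ1 m
  obtain ⟨C3, hC3, hR⟩ := hCR1 m e1 he1 (Cq * Ca) (by positivity) Ka
  obtain ⟨C1, hC1, hD⟩ := hDY1 m e1 he1 (Cq * Cb) (by positivity) Kb
  obtain ⟨C, hC, hb⟩ := h c' C1 C3 hc' hc'1 hC1 hC3
  refine ⟨C, hC, ?_⟩
  intro N _ T D hS B0 H U hB0 hH hHU ι _ _ lam W h1 hW δ hδ hBes c M _ G lamG hc hG
  have hH0 : 0 < H := by linarith
  have hN1 : 1 ≤ N := by
    have := hS.two_le
    omega
  have hδ0 : 0 < δ := by rw [hδ]; positivity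
  have hδP : δ * H = c' := by rw [hδ]; field_simp
  have hδP1 : δ ≤ δ * H := le_mul_of_one_le_right hδ0.le hH
  have hδ1 : δ ≤ 1 / 2 := by linarith
  have hWt : ∀ i, (fun i => ENNReal.ofReal (W i)) i ≠ ⊤ := fun i => ENNReal.ofReal_ne_top
  have hLTa := hQ (e1 / 2) Ca Ka ι (fun i => ENNReal.ofReal (W i)) lam N δ hδ0 hδ1
    (hLa N D hN1 hS.dom δ hδ0 hδ1 ι (fun i => ENNReal.ofReal (W i)) lam hWt hBes)
  have hLTb := lt2_mul (hQ e1 Cb Kb ι (fun i => ENNReal.ofReal (W i)) lam N δ hδ0 hδ1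
    (hLb N D hN1 hS.dom δ hδ0 hδ1 ι (fun i => ENNReal.ofReal (W i)) lam hWt hBes)) hc
  refine hb T D N B0 H U hN1 hB0 hH hHU ι M G lamG W hG.sys hG.form hW δ hδ ?_ ?_
  · have h2 := hR ι (fun i => ENNReal.ofReal (W i)) lam N δ hN1 hδ0 hδ1 h1 hLTa
    rw [← ENNReal.ofReal_sum_of_nonneg (fun i _ => hW i),
      ← ENNReal.ofReal_mul (Finset.sum_nonneg fun i _ => hW i),
      ENNReal.ofReal_le_ofReal_iff (by positivity)] at h2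
    exact h2
  · intro X hX1 τ
    have h3 := hD ι (fun i => ENNReal.ofReal (W i)) (fun i n => c n * lam i n) N δ hN1 hδ0 hδ1 hWt
      hLTb X hX1 τ
    have e : ∀ (i : ι) (t : ℝ), SD (lamG i) X (t + τ) =
        SD (fun n => c n * lam i n) X (t + τ) := fun i t => sd_congr (hG.tw i) X (t + τ)
    simp only [e]
    exact h3

end Pool.Agent.H31.CT
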