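import Pool.Agent.H31.CT.GBT
import Pool.Agent.H31.THN.GH1

/-!
Character twists (MP_52e316_nt): the second moment in a window for orthonormal families and for families
with orthogonal translates.
-/

set_option autoImplicit false

namespace Pool.Agent.H31.CT

open MeasureTheory Pool.Agent.H27.L1.H34.GM Pool.Agent.H27.L1.H34.GZ Pool.Agent.H27.L1.H34.GU Pool.Agent.H27.L1.H34.GA
open Pool.Agent.H27.L1.H68.GHY Pool.Agent.H27.L1.H34.GHY Pool.Agent.H27.L1.H68.GHK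
open Pool.Agent.H27.L1.H34.GZZ
open Pool.Agent.H27.L1.H69.GA Pool.Agent.H27.L1.H69.GB
open Pool.Agent.H47.THN (BES1 T_BW1 T_BO1)
open Pool.Agent.H31.THN (radius)

/-- the conclusion of `ct_GB` for given `m` and `ε`, for all profiles -/
def T_GBT : Prop := ∀ (m : ℕ), 1 ≤ m → ∀ (ε : ℝ), 0 < ε → ∀ (χ : ℝ → ℝ), Prof χ →
  ∀ (cM CM : ℝ) (AM : ℕ), 0 < cM → 1 ≤ CM → ∀ c' : ℝ, 0 < c' → c' ≤ 1 / 2 →
  ∃ C : ℝ, 0 < C ∧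
    ∀ (N : ℕ) [NeZero N] (T : ℕ → Finset (ZM m)) (D : Set (V m)), SysZ m N T D →
    ∀ B0 H U : ℝ, 1 ≤ B0 → 1 ≤ H → H ≤ U → ∀ (ι : Type) [Fintype ι] [DecidableEq ι]
      (lam : ι → ℕ → ℂ) (W : ι → ℝ), (∀ i, lam i 1 = 1) → (∀ i, 0 ≤ W i) →
    ∀ δ : ℝ, δ = c' / H →
    (∀ Y : ℝ, 2 ≤ Y → CM * N * δ⁻¹ ^ AM ≤ Y →
      BES1 m (fun i => ENNReal.ofReal (W i)) lam N D χ cM δ Y) →
    ∀ (c : ℕ → ℂ) (M : ι → ℕ) [∀ i, NeZero (M i)] (G : ∀ i, Mat m → VN m (M i) → ℂ)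
      (lamG : ι → ℕ → ℂ), (∀ n, ‖c n‖ ≤ 1) → Tw m T D B0 U c lam M G lamG →
    ∃ L : ι → ℂ → ℂ, (∀ i, IsL m 1 (lamG i) (L i)) ∧
      ∀ (t0 : ℝ) (J : ι → Finset ℝ), H + |t0| ≤ U → (∀ i, Wsp (J i)) →
      (∀ i, ∀ t ∈ J i, |t - t0| ≤ H) →
      ∑ i, W i * ∑ t ∈ J i, ‖L i (1 / 2 + t * Complex.I)‖ ^ 2 ≤
        C * ((N : ℝ) * B0 * U) ^ ε * Q3 m N B0 H U

/-- forms with orthogonal translates, weights `1 / Hn` -/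
def T_GHT : Prop := ∀ m : ℕ, 1 ≤ m → ∀ r ε : ℝ, 0 < r → 0 < ε → ∃ C : ℝ, 0 < C ∧
  ∀ (N : ℕ) [NeZero N] (T : ℕ → Finset (ZM m)) (D : Set (V m)), SysZ m N T D →
  ∀ B0 H U : ℝ, 1 ≤ B0 → 1 ≤ H → H ≤ U →
  ∀ (ι : Type) [Fintype ι] [DecidableEq ι] (F : ι → Mat m → VN m N → ℂ) (lam : ι → ℕ → ℂ),
    (∀ i, CusB m N T (F i) (lam i) ∧ Lip D (F i) H) → OrS D F →
    ∀ (c : ℕ → ℂ) (M : ι → ℕ) [∀ i, NeZero (M i)] (G : ∀ i, Mat m → VN m (M i) → ℂ)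
      (lamG : ι → ℕ → ℂ), (∀ n, ‖c n‖ ≤ 1) → Tw m T D B0 U c lam M G lamG →
    ∃ L : ι → ℂ → ℂ, (∀ i, IsL m 1 (lamG i) (L i)) ∧
      ∀ (t0 : ℝ) (J : ι → Finset ℝ), H + |t0| ≤ U → (∀ i, Wsp (J i)) →
      (∀ i, ∀ t ∈ J i, |t - t0| ≤ H) →
      ∑ i, (Hn r D (F i))⁻¹ * ∑ t ∈ J i, ‖L i (1 / 2 + t * Complex.I)‖ ^ 2 ≤
        C * ((N : ℝ) * B0 * U) ^ ε * Q3 m N B0 H U

/-- orthonormal forms, weights `1` -/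
def T_GOT : Prop := ∀ m : ℕ, 1 ≤ m → ∀ ε : ℝ, 0 < ε → ∃ C : ℝ, 0 < C ∧
  ∀ (N : ℕ) [NeZero N] (T : ℕ → Finset (ZM m)) (D : Set (V m)), SysZ m N T D →
  ∀ B0 H U : ℝ, 1 ≤ B0 → 1 ≤ H → H ≤ U →
  ∀ (ι : Type) [Fintype ι] [DecidableEq ι] (F : ι → Mat m → VN m N → ℂ) (lam : ι → ℕ → ℂ),
    (∀ i, CusB m N T (F i) (lam i) ∧ Lip D (F i) H) → Orthn D F →
    ∀ (c : ℕ → ℂ) (M : ι → ℕ) [∀ i, NeZero (M i)] (G : ∀ i, Mat m → VN m (M i) → ℂ)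
      (lamG : ι → ℕ → ℂ), (∀ n, ‖c n‖ ≤ 1) → Tw m T D B0 U c lam M G lamG →
    ∃ L : ι → ℂ → ℂ, (∀ i, IsL m 1 (lamG i) (L i)) ∧
      ∀ (t0 : ℝ) (J : ι → Finset ℝ), H + |t0| ≤ U → (∀ i, Wsp (J i)) →
      (∀ i, ∀ t ∈ J i, |t - t0| ≤ H) →
      ∑ i, ∑ t ∈ J i, ‖L i (1 / 2 + t * Complex.I)‖ ^ 2 ≤
        C * ((N : ℝ) * B0 * U) ^ ε * Q3 m N B0 H U

theorem pf_GHT (hPRF : T_PRF) (hBW : T_BW1) (hGB : T_GBT) : T_GHT := by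
  obtain ⟨χ, hχ⟩ := hPRF
  intro m hm1 r ε hr hε
  obtain ⟨c0, CM, AM, hc0, hCM, hK⟩ := hBW m χ r hm1 hχ hr
  obtain ⟨c', hc', hc'1, hrad⟩ := radius hc0
  obtain ⟨C, hC, hb⟩ := hGB m hm1 ε hε χ hχ c0 CM AM hc0 hCM c' hc' hc'1
  refine ⟨C, hC, ?_⟩
  intro N _ T D hS B0 H U hB0 hH hHU ι _ _ F lam hF hO c M _ G lamG hc hG
  have hH0 : 0 ≤ H := by linarith
  have hHn : ∀ i, 0 ≤ Hn r D (F i) := fun i => integral_nonneg fun u => by positivity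
  obtain ⟨δ, hδ⟩ : ∃ δ : ℝ, δ = c' / H := ⟨_, rfl⟩
  obtain ⟨hδ0, hδ1, hδ2⟩ := hrad H hH δ hδ
  have h1 : ∀ i, lam i 1 = 1 := fun i =>
    lam_one hS (hF i).1.toHecA (spx_nz hS (by rw [hO.one i]; exact one_ne_zero))
  exact hb N T D hS B0 H U hB0 hH hHU ι lam (fun i => (Hn r D (F i))⁻¹) h1
    (fun i => inv_nonneg.2 (hHn i)) δ hδ
    (fun Y _ hY => hK N T D hS ι F lam H hF hO hH0 δ hδ0 hδ1 hδ2 Y hY) c M G lamG hc hG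

theorem pf_GOT (hPRF : T_PRF) (hBO : T_BO1) (hGB : T_GBT) : T_GOT := by
  obtain ⟨χ, hχ⟩ := hPRF
  intro m hm1 ε hε
  obtain ⟨c0, CM, AM, hc0, hCM, hK⟩ := hBO m χ hm1 hχ
  obtain ⟨c', hc', hc'1, hrad⟩ := radius hc0
  obtain ⟨C, hC, hb⟩ := hGB m hm1 ε hε χ hχ c0 CM AM hc0 hCM c' hc' hc'1
  refine ⟨C, hC, ?_⟩
  intro N _ T D hS B0 H U hB0 hH hHU ι _ _ F lam hF hO c M _ G lamG hc hG
  have hH0 : 0 ≤ H := by linarith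
  obtain ⟨δ, hδ⟩ : ∃ δ : ℝ, δ = c' / H := ⟨_, rfl⟩
  obtain ⟨hδ0, hδ1, hδ2⟩ := hrad H hH δ hδ
  have hn : ∀ i, nU D (F i) = 1 := fun i => mou_nU F hO i
  have h1 : ∀ i, lam i 1 = 1 := fun i =>
    lam_one hS (hF i).1.toHecA (spx_nz hS (by rw [hn i]; exact one_ne_zero))
  obtain ⟨L, hL, hLb⟩ := hb N T D hS B0 H U hB0 hH hHU ι lam (fun _ => 1) h1
    (fun _ => zero_le_one) δ hδ
    (fun Y _ hY => by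
      have h1 := hK N T D hS ι F lam H (fun i => ⟨(hF i).1, (hF i).2, hn i⟩) hO hH0 δ hδ0 hδ1 hδ2
        Y hY
      rw [ENNReal.ofReal_one]
      exact h1) c M G lamG hc hG
  refine ⟨L, hL, fun t0 J hU hJ hJH => ?_⟩
  have h1 := hLb t0 J hU hJ hJH
  simp only [one_mul] at h1
  exact h1

end Pool.Agent.H31.CT
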