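import Pool.Agent.H31.CT.GHT
import Pool.Agent.H31.THN.LV1

/-!
Character twists (MP_52e316_nt): one level, all the admissible weights.
-/

set_option autoImplicit false

namespace Pool.Agent.H31.CT

open MeasureTheory Pool.Agent.H27.L1.H34.GM Pool.Agent.H27.L1.H34.GZ Pool.Agent.H27.L1.H34.GU Pool.Agent.H27.L1.H34.GA
open Pool.Agent.H27.L1.H68.GHY Pool.Agent.H27.L1.H34.GHY Pool.Agent.H27.L1.H34.GZZ Pool.Agent.H27.L1.H68.GHK
open Pool.Agent.H27.L1.H34.GHK (pl T_WYE pl_perm pl_mono cuspU_of isl_eq orthn_sub)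

/-- a subfamily -/
lemma Tw.sub {m : ℕ} {T : ℕ → Finset (ZM m)} {D : Set (V m)} {B0 U : ℝ} {ι : Type} {c : ℕ → ℂ}
    {lam : ι → ℕ → ℂ} {M : ι → ℕ} [∀ i, NeZero (M i)] {G : ∀ i, Mat m → VN m (M i) → ℂ}
    {lamG : ι → ℕ → ℂ} (h : Tw m T D B0 U c lam M G lamG) (p : ι → Prop) :
    Tw m T D B0 U c (fun i : {i // p i} => lam i.1) (fun i => M i.1) (fun i => G i.1)
      (fun i => lamG i.1) :=
  ⟨fun i => h.sys i.1, fun i => h.form i.1, fun i => h.tw i.1⟩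

open Classical in
/-- one level, spherical forms -/
theorem lvt_sph (h_GBH : T_GHT) (h_HKW : T_HKW) (h_ORS : T_ORS) (h_APU : T_APU) (m : ℕ)
    (hm1 : 1 ≤ m) (ε : ℝ) (hε : 0 < ε) : ∃ C : ℝ, 0 < C ∧
    ∀ (N : ℕ) [NeZero N] (T : ℕ → Finset (ZM m)) (D : Set (V m)), SysZ m N T D →
      ∀ B0 H U : ℝ, 1 ≤ B0 → 1 ≤ H → H ≤ U → ∀ (S : Type) [Fintype S] [DecidableEq S]
        (F : S → Mat m → VN m N → ℂ) (lam : S → ℕ → ℂ) (mu : S → Fin m → ℂ) (W : S → ℝ),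
        (∀ i, CuspU m N T (F i) (lam i) (mu i) ∧ Lip D (F i) H ∧
          Monotone (fun j => (mu i j).im)) → Orthn D F → (∀ i, W i ≤ Wt (mu i)) →
        ∀ (c : ℕ → ℂ) (M : S → ℕ) [∀ i, NeZero (M i)] (G : ∀ i, Mat m → VN m (M i) → ℂ)
          (lamG : S → ℕ → ℂ), (∀ n, ‖c n‖ ≤ 1) → Tw m T D B0 U c lam M G lamG →
        ∃ L : S → ℂ → ℂ, (∀ i, IsL m 1 (lamG i) (L i)) ∧
          ∀ (t0 : ℝ) (J : S → Finset ℝ), H + |t0| ≤ U → (∀ i, Wsp (J i)) →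
            (∀ i, ∀ t ∈ J i, |t - t0| ≤ H) →
            ∑ i, W i * ∑ t ∈ J i, ‖L i (1 / 2 + t * Complex.I)‖ ^ 2 ≤
              C * ((N : ℝ) * B0 * U) ^ ε * Q3 m N B0 H U := by
  obtain ⟨r, hr, hH⟩ := h_HKW m hm1
  obtain ⟨CH, hCH, hH⟩ := hH ((m : ℝ) ^ 2)
  obtain ⟨C, hC, h⟩ := h_GBH m hm1 r ε hr hε
  refine ⟨CH * C, by positivity, ?_⟩
  intro N _ T D hS B0 H U hB0 hHH hHU S _ _ F lam mu W hF ho hW c M _ G lamG hc hG
  have hO := h_ORS m N T D hS S F lam mu (fun i => (hF i).1) ho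
  obtain ⟨L, hL, hb⟩ := h N T D hS B0 H U hB0 hHH hHU S F lam
    (fun i => ⟨Pool.Agent.H27.L1.H46.GHK.cusB_of_cuspU (hF i).1, (hF i).2.1⟩) hO c M G lamG hc hG
  refine ⟨L, hL, fun t0 J hU hJ hJP => ?_⟩
  calc ∑ i, W i * ∑ t ∈ J i, ‖L i (1 / 2 + t * Complex.I)‖ ^ 2 ≤
      ∑ i, CH * ((Hn r D (F i))⁻¹ * ∑ t ∈ J i, ‖L i (1 / 2 + t * Complex.I)‖ ^ 2) := by
        refine Finset.sum_le_sum (fun i _ => ?_)
        rw [← mul_assoc]
        refine mul_le_mul_of_nonneg_right ?_ (Finset.sum_nonneg (fun t _ => by positivity))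
        have hnz : NZ (F i) := Pool.Agent.H27.L1.H46.GHK.nz_of_norm hm1 hS.dom (hO.one i)
        obtain ⟨h1, h2⟩ := hH N T D hS (F i) (lam i) (mu i) (hF i).1 (hO.one i)
          (Pool.Agent.H27.L1.H46.GHK.re_bd (mu i) (hF i).1.tr0
            (fun j => h_APU m N T (F i) (lam i) (mu i) hm1 (hF i).1.toEigU hnz j)) (hF i).2.2
        have hWt : 0 < Wt (mu i) := Pool.Agent.H27.L1.H46.GHK.wt_pos (mu i)
        refine (hW i).trans ?_
        rw [← div_eq_mul_inv, le_div_iff₀ h2]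
        rw [le_div_iff₀ hWt] at h1
        linarith
    _ = CH * ∑ i, (Hn r D (F i))⁻¹ * ∑ t ∈ J i, ‖L i (1 / 2 + t * Complex.I)‖ ^ 2 := by
        rw [Finset.mul_sum]
    _ ≤ CH * (C * ((N : ℝ) * B0 * U) ^ ε * Q3 m N B0 H U) :=
        mul_le_mul_of_nonneg_left (hb t0 J hU hJ hJP) hCH.le
    _ = _ := by ring

/-- one level, all the admissible weights -/
def T_LVT : Prop := ∀ m : ℕ, 1 ≤ m → ∀ ε : ℝ, 0 < ε → ∃ C : ℝ, 0 < C ∧
  ∀ (N : ℕ) [NeZero N] (T : ℕ → Finset (ZM m)) (D : Set (V m)), SysZ m N T D →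
    ∀ B0 H U : ℝ, 1 ≤ B0 → 1 ≤ H → H ≤ U → ∀ (S : Type) [Fintype S] [DecidableEq S]
      (F : S → Mat m → VN m N → ℂ) (lam : S → ℕ → ℂ) (W : S → ℝ),
      (∀ i, CusB m N T (F i) (lam i) ∧ Lip D (F i) H) → Orthn D F → (∀ i, 0 ≤ W i) →
      (∀ i, W i ≤ 1 ∨ (∃ mu : Fin m → ℂ, EigU m N T (F i) (lam i) mu ∧
          W i ≤ Pool.Agent.H27.L1.H34.GHK.pl mu) ∨
        ((∀ j, j ≠ i → ∀ u : Mat m, u.det ≠ 0 → ip D (rt u (F i)) (F j) = 0) ∧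
          W i ≤ (Hn (1 / (2 * (m : ℝ))) D (F i))⁻¹)) →
      ∀ (c : ℕ → ℂ) (M : S → ℕ) [∀ i, NeZero (M i)] (G : ∀ i, Mat m → VN m (M i) → ℂ)
        (lamG : S → ℕ → ℂ), (∀ n, ‖c n‖ ≤ 1) → Tw m T D B0 U c lam M G lamG →
      ∃ L : S → ℂ → ℂ, (∀ i, IsL m 1 (lamG i) (L i)) ∧
        ∀ (t0 : ℝ) (J : S → Finset ℝ), H + |t0| ≤ U → (∀ i, Wsp (J i)) →
          (∀ i, ∀ t ∈ J i, |t - t0| ≤ H) →
          ∑ i, W i * ∑ t ∈ J i, ‖L i (1 / 2 + t * Complex.I)‖ ^ 2 ≤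
            C * ((N : ℝ) * B0 * U) ^ ε * Q3 m N B0 H U

open Classical in
/-- one level, all weights -/
theorem pf_LVT (h_GBZ : T_GOT) (h_GBH : T_GHT) (h_HKW : T_HKW) (h_ORS : T_ORS) (h_APU : T_APU)
    (h_WYE : T_WYE) : T_LVT := by
  intro m hm1 ε hε
  have hm0 : (0 : ℝ) < m := by exact_mod_cast hm1
  obtain ⟨C1, hC1, h1⟩ := h_GBZ m hm1 ε hε
  obtain ⟨C2, hC2, h2⟩ := lvt_sph h_GBH h_HKW h_ORS h_APU m hm1 ε hε
  obtain ⟨C3, hC3, h3⟩ := h_GBH m hm1 (1 / (2 * (m : ℝ))) ε (by positivity) hε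
  refine ⟨C1 + C2 + C3, by positivity, ?_⟩
  intro N _ T D hS B0 H U hB0 hHH hHU S _ _ F lam W hF ho hW0 hW c M _ G lamG hc hG
  obtain ⟨L, hL, hb1⟩ := h1 N T D hS B0 H U hB0 hHH hHU S F lam hF ho c M G lamG hc hG
  -- the three kinds
  obtain ⟨p2, hp2⟩ : ∃ p : S → Prop, p = fun i => ∃ mu : Fin m → ℂ,
    EigU m N T (F i) (lam i) mu ∧ W i ≤ pl mu := ⟨_, rfl⟩
  obtain ⟨p3, hp3⟩ : ∃ p : S → Prop, p = fun i =>
    (∀ j, j ≠ i → ∀ u : Mat m, u.det ≠ 0 → ip D (rt u (F i)) (F j) = 0) ∧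
      W i ≤ (Hn (1 / (2 * (m : ℝ))) D (F i))⁻¹ := ⟨_, rfl⟩
  have hp2' : ∀ i, p2 i → ∃ mu : Fin m → ℂ, EigU m N T (F i) (lam i) mu ∧ W i ≤ pl mu := by
    intro i hi
    rw [hp2] at hi
    exact hi
  have hp3' : ∀ i, p3 i → (∀ j, j ≠ i → ∀ u : Mat m, u.det ≠ 0 → ip D (rt u (F i)) (F j) = 0) ∧
      W i ≤ (Hn (1 / (2 * (m : ℝ))) D (F i))⁻¹ := by
    intro i hi
    rw [hp3] at hi
    exact hi
  -- spherical forms
  have hmu : ∀ i : {i // p2 i}, ∃ mu : Fin m → ℂ, CuspU m N T (F i.1) (lam i.1) mu ∧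
      Monotone (fun j => (mu j).im) ∧ W i.1 ≤ Wt mu := by
    intro i
    obtain ⟨mu, h5, h6⟩ := hp2' i.1 i.2
    have hmo : Monotone (fun j => ((mu ∘ Tuple.sort (fun j => (mu j).im)) j).im) :=
      Tuple.monotone_sort (fun j => (mu j).im)
    refine ⟨mu ∘ Tuple.sort (fun j => (mu j).im), cuspU_of (hF i.1).1 (h_WYE m N T (F i.1)
      (lam i.1) mu _ h5), hmo, ?_⟩
    rw [← pl_mono _ hmo, pl_perm]
    exact h6
  choose mu hmu1 hmu2 hmu3 using hmu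
  obtain ⟨L2, hL2, hb2⟩ := h2 N T D hS B0 H U hB0 hHH hHU {i // p2 i} (fun i => F i.1)
    (fun i => lam i.1) mu (fun i => W i.1) (fun i => ⟨hmu1 i, (hF i.1).2, hmu2 i⟩)
    (orthn_sub ho p2) hmu3 c (fun i => M i.1) (fun i => G i.1) (fun i => lamG i.1) hc (hG.sub p2)
  -- forms with orthogonal translates
  have hO3 : OrS D (fun i : {i // p3 i} => F i.1) := by
    refine ⟨fun i => mou_nU F ho i.1, fun i j hij u hu => ?_⟩
    exact (hp3' i.1 i.2).1 j.1 (fun h5 => hij (Subtype.ext h5.symm)) u hu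
  obtain ⟨L3, hL3, hb3⟩ := h3 N T D hS B0 H U hB0 hHH hHU {i // p3 i} (fun i => F i.1)
    (fun i => lam i.1) (fun i => hF i.1) hO3 c (fun i => M i.1) (fun i => G i.1)
    (fun i => lamG i.1) hc (hG.sub p3)
  refine ⟨L, hL, fun t0 J hU hJ hJP => ?_⟩
  obtain ⟨a, ha⟩ : ∃ a : S → ℝ, a = fun i => ∑ t ∈ J i, ‖L i (1 / 2 + t * Complex.I)‖ ^ 2 :=
    ⟨_, rfl⟩
  have ha0 : ∀ i, 0 ≤ a i := fun i => by
    rw [ha]
    exact Finset.sum_nonneg (fun t _ => by positivity)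
  have e2 : ∀ i : {i // p2 i}, L2 i = L i.1 := fun i => isl_eq (hL2 i) (hL i.1)
  have e3 : ∀ i : {i // p3 i}, L3 i = L i.1 := fun i => isl_eq (hL3 i) (hL i.1)
  obtain ⟨B, hB⟩ : ∃ B : ℝ, B = ((N : ℝ) * B0 * U) ^ ε * Q3 m N B0 H U := ⟨_, rfl⟩
  have hB1 : ∑ i, a i ≤ C1 * B := by
    rw [hB, ha]
    refine (hb1 t0 J hU hJ hJP).trans (le_of_eq ?_)
    ring
  have hB2 : ∑ i ∈ Finset.univ.filter p2, W i * a i ≤ C2 * B := by
    have h4 := hb2 t0 (fun i => J i.1) hU (fun i => hJ i.1) (fun i => hJP i.1)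
    simp only [e2] at h4
    rw [Finset.sum_subtype (Finset.univ.filter p2) (p := p2) (fun i => by simp)
      (fun i => W i * a i), hB, ha]
    refine h4.trans (le_of_eq ?_)
    ring
  have hB3 : ∑ i ∈ Finset.univ.filter p3, (Hn (1 / (2 * (m : ℝ))) D (F i))⁻¹ * a i ≤ C3 * B := by
    have h4 := hb3 t0 (fun i => J i.1) hU (fun i => hJ i.1) (fun i => hJP i.1)
    simp only [e3] at h4
    rw [Finset.sum_subtype (Finset.univ.filter p3) (p := p3) (fun i => by simp)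
      (fun i => (Hn (1 / (2 * (m : ℝ))) D (F i))⁻¹ * a i), hB, ha]
    refine h4.trans (le_of_eq ?_)
    ring
  have hHn : ∀ i, 0 ≤ Hn (1 / (2 * (m : ℝ))) D (F i) := fun i =>
    integral_nonneg fun u => by positivity
  have hpt : ∀ i, W i * a i ≤ a i + (if p2 i then W i * a i else 0) +
      (if p3 i then (Hn (1 / (2 * (m : ℝ))) D (F i))⁻¹ * a i else 0) := by
    intro i
    have h5 : 0 ≤ (if p2 i then W i * a i else 0) := by
      split_ifs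
      · exact mul_nonneg (hW0 i) (ha0 i)
      · exact le_rfl
    have h6 : 0 ≤ (if p3 i then (Hn (1 / (2 * (m : ℝ))) D (F i))⁻¹ * a i else 0) := by
      split_ifs
      · exact mul_nonneg (inv_nonneg.2 (hHn i)) (ha0 i)
      · exact le_rfl
    rcases hW i with h4 | h4 | h4
    · have := mul_le_of_le_one_left (ha0 i) h4
      linarith
    · have h7 : p2 i := by rw [hp2]; exact h4
      rw [if_pos h7]
      have := ha0 i
      linarith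
    · have h7 : p3 i := by rw [hp3]; exact h4
      rw [if_pos h7]
      have := mul_le_mul_of_nonneg_right h4.2 (ha0 i)
      have := ha0 i
      linarith
  calc ∑ i, W i * ∑ t ∈ J i, ‖L i (1 / 2 + t * Complex.I)‖ ^ 2 = ∑ i, W i * a i := by rw [ha]
    _ ≤ ∑ i, (a i + (if p2 i then W i * a i else 0) +
        (if p3 i then (Hn (1 / (2 * (m : ℝ))) D (F i))⁻¹ * a i else 0)) :=
        Finset.sum_le_sum (fun i _ => hpt i)
    _ = ∑ i, a i + ∑ i ∈ Finset.univ.filter p2, W i * a i +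
        ∑ i ∈ Finset.univ.filter p3, (Hn (1 / (2 * (m : ℝ))) D (F i))⁻¹ * a i := by
        rw [Finset.sum_add_distrib, Finset.sum_add_distrib, Finset.sum_filter, Finset.sum_filter]
    _ ≤ C1 * B + C2 * B + C3 * B := add_le_add (add_le_add hB1 hB2) hB3
    _ = _ := by
        rw [hB]
        ring

end Pool.Agent.H31.CT
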